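import Pool.Agent.Helper57.TA.Alg
import Pool.Agent.Helper31.EC.RobS

/-! SMALL GRADIENTS: a polynomial in real variables with small partial derivatives has few digits; a polynomial with
almost all digits has, on an event of positive probability, a partial derivative which is not small. -/

set_option autoImplicit false

namespace Pool.Agent.Helper58.GR

open Finset Filter Topology Pool.Agent.Helper69.RK Pool.Agent.Helper31.EC Pool.Agent.Helper31.EC.Sp
open Pool.Agent.Helper31.EC.QS Pool.Agent.Helper57.TA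

noncomputable section

variable {S : Sp}

/-- elements of size `2 ^ (-r n)` have at most `1 - r` digits -/
theorem H_dg_of_mem {f : QS S} {r : ℝ} (hr : r ≤ 1) (h : f ∈ Id S r) : H (dg f 1) ≤ 1 - r := by
  have h1 := h_dg_dg f hr
  rw [dg_of_mem_Id h le_rfl hr, h_bot] at h1
  exact h1

/-- GRAD-LOW -/
theorem grad_low {σ : Type} [Fintype σ] {Y : σ → QS S} {V : S.L} (hY : Rl Y V) {Φ : MvPolynomial σ (QS S)}
    (hΦ : Φ ∈ PK V) {r : ℝ} (hr : r ≤ 1)
    (hd : ∀ a, MvPolynomial.eval Y (MvPolynomial.pderiv a Φ) ∈ Id S r) :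
    h (dg (MvPolynomial.eval Y Φ) 1) V ≤ 1 - r := by
  set c : QS S := MvPolynomial.eval (fun _ => 0) Φ with hc
  have h1 : MvPolynomial.eval Y Φ - c ∈ Id S r :=
    const_of_pderiv one_pos le_rfl (Rl_iff_Rt.mp hY) hr hΦ hd _
  have h2 : dg c 1 ≤ V := eval_mem hΦ _ le_rfl fun _ => (Kn S 1 le_rfl V).zero_mem
  have h3 : dg (MvPolynomial.eval Y Φ) 1 ≤ dg (MvPolynomial.eval Y Φ - c) 1 ⊔ V := by
    have h4 : MvPolynomial.eval Y Φ - c + c ∈ Kn S 1 le_rfl (dg (MvPolynomial.eval Y Φ - c) 1 ⊔ V) :=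
      (Kn S 1 le_rfl _).add_mem (mem_Kn.mpr le_sup_left) (mem_Kn.mpr (h2.trans le_sup_right))
    rw [sub_add_cancel] at h4
    exact h4
  have h5 : h (dg (MvPolynomial.eval Y Φ) 1) V ≤ h (dg (MvPolynomial.eval Y Φ - c) 1 ⊔ V) V := h_mono h3
  have h6 : h (dg (MvPolynomial.eval Y Φ - c) 1 ⊔ V) V = h (dg (MvPolynomial.eval Y Φ - c) 1) V := by
    rw [h_sup_right_of_le le_rfl]
  rw [h6] at h5
  exact (h5.trans (h_le_H _ _)).trans (H_dg_of_mem hr h1)

/-- functions which agree, up to `K dl 1`, with the partial derivatives: if they are typically small, the polynomial has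
few digits -/
theorem grad_low_fn {σ : Type} [Fintype σ] {Y : σ → QS S} {V : S.L} (hY : Rl Y V) {Φ : MvPolynomial σ (QS S)}
    (hΦ : Φ ∈ PK V) {r : ℝ} (hr : r ≤ 1) (τ : σ → ∀ n, (S.F n).Ω → ℝ)
    (hτ : ∀ a, ∃ g : TR S, mk g = MvPolynomial.eval Y (MvPolynomial.pderiv a Φ) ∧ ∃ K : ℕ → ℝ, S.Sub K ∧
      Typ fun n ω => |τ a n ω - TR.ev g n ω| ≤ K n * S.dl 1 n)
    (hs : ∀ a, ∃ K : ℕ → ℝ, S.Sub K ∧ Typ fun n ω => |τ a n ω| ≤ K n * S.dl r n) :
    h (dg (MvPolynomial.eval Y Φ) 1) V ≤ 1 - r := by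
  refine grad_low hY hΦ hr fun a => ?_
  obtain ⟨g, hg, K, hK, h1⟩ := hτ a
  obtain ⟨K', hK', h2⟩ := hs a
  rw [← hg, mk_mem_Id hr]
  refine ⟨_, fun n => K n + K' n, h1.and h2, hK.add hK', ?_⟩
  filter_upwards [hK.1] with n hn ω _ hω
  obtain ⟨a1, a2⟩ := hω
  rw [TR.ev_zero, sub_zero]
  have h3 : TR.ev g n ω = -(τ a n ω - TR.ev g n ω) + τ a n ω := by ring
  rw [h3]
  refine (abs_add_le _ _).trans ?_
  rw [abs_neg, add_mul]
  exact add_le_add (a1.trans (mul_le_mul_of_nonneg_left (S.dl_anti hr n) hn)) a2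

/-- GRAD ON AN EVENT: almost all digits of the polynomial are free given `V`: then one of the partial derivatives is not
small on an event of positive probability -/
theorem grad_event {σ : Type} [Fintype σ] {Y : σ → QS S} {V : S.L} (hY : Rl Y V) {Φ : MvPolynomial σ (QS S)}
    (hΦ : Φ ∈ PK V) {θ : ℝ} (hθ : θ ≤ 1) (hh : 1 - θ < h (dg (MvPolynomial.eval Y Φ) 1) V)
    (τ : σ → ∀ n, (S.F n).Ω → ℝ)
    (hτ : ∀ a, ∃ g : TR S, mk g = MvPolynomial.eval Y (MvPolynomial.pderiv a Φ) ∧ ∃ K : ℕ → ℝ, S.Sub K ∧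
      Typ fun n ω => |τ a n ω - TR.ev g n ω| ≤ K n * S.dl 1 n) :
    ∃ a, 0 < ul (S.pr fun n ω => S.dl θ n ≤ |τ a n ω|) := by
  by_contra hn
  push Not at hn
  have h1 := grad_low_fn hY hΦ hθ τ hτ fun a => by
    refine ⟨fun _ => 1, S.Sub_const zero_le_one, ?_⟩
    rcases typ_or (S := S) (fun n ω => ¬ S.dl θ n ≤ |τ a n ω|) with h2 | h2
    · refine h2.mono (Eventually.of_forall fun n ω _ hω => ?_)
      rw [one_mul]
      exact (not_le.mp hω).le
    · exfalso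
      simp only [not_not] at h2
      exact absurd h2 (not_lt.mpr (hn a))
  linarith

/-- the same with the representatives of the partial derivatives -/
theorem grad_event_rep {σ : Type} [Fintype σ] {Y : σ → QS S} {V : S.L} (hY : Rl Y V) {Φ : MvPolynomial σ (QS S)}
    (hΦ : Φ ∈ PK V) {θ : ℝ} (hθ : θ ≤ 1) (hh : 1 - θ < h (dg (MvPolynomial.eval Y Φ) 1) V) (g : σ → TR S)
    (hg : ∀ a, mk (g a) = MvPolynomial.eval Y (MvPolynomial.pderiv a Φ)) :
    ∃ a, 0 < ul (S.pr fun n ω => S.dl θ n ≤ |TR.ev (g a) n ω|) :=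
  grad_event hY hΦ hθ hh (fun a n ω => TR.ev (g a) n ω) fun a => ⟨g a, hg a, fun _ => 0, S.Sub_const le_rfl,
    Typ_true.mono (Eventually.of_forall fun n ω _ _ => by rw [sub_self, abs_zero, zero_mul])⟩

end

end Pool.Agent.Helper58.GR
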